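import Pool.Agent.Helper14.W3.StB

/-!
# Project W3, module B3a: decomposition of a symbol of level `3^n`
-/

set_option autoImplicit false

namespace Pool.Agent.Helper72.W3

open Pool.Agent.Helper14.CV Pool.Agent.Helper14.W3

/-- An operator which commutes with the two others preserves vanishing averages. -/
private lemma av_comm {X P Q P' Q' : ℤ → ℤ → ℂ} {a b c d : ℤ} (hd : a * d - b * c ≠ 0)
    (h : EqC (X + P + Q) 0) (hP : EqC P' (act a b c d P)) (hQ : EqC Q' (act a b c d Q)) :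
    EqC (act a b c d X + P' + Q') 0 := by
  have h1 : EqC (act a b c d X + P' + Q') (act a b c d X + act a b c d P + act a b c d Q) :=
    ((EqC.refl _).add hP).add hQ
  have h2 := h.act hd
  exact h1.trans h2

/-- The same for an operator which exchanges the two others. -/
private lemma av_swap {X P Q P' Q' : ℤ → ℤ → ℂ} {a b c d : ℤ} (hd : a * d - b * c ≠ 0)
    (h : EqC (X + P + Q) 0) (hP : EqC P' (act a b c d Q)) (hQ : EqC Q' (act a b c d P)) :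
    EqC (act a b c d X + P' + Q') 0 := by
  have e : X + P + Q = X + Q + P := by abel
  rw [e] at h
  exact av_comm hd h hP hQ

/-- Vanishing averages of linear combinations. -/
private lemma av_add {X Y P Q P' Q' : ℤ → ℤ → ℂ} (h : EqC (X + P + Q) 0)
    (h' : EqC (Y + P' + Q') 0) : EqC ((X + Y) + (P + P') + (Q + Q')) 0 := by
  have e : (X + Y) + (P + P') + (Q + Q') = (X + P + Q) + (Y + P' + Q') := by abel
  have := h.add h'
  rw [← e, add_zero] at this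
  exact this

private lemma av_sub {X Y P Q P' Q' : ℤ → ℤ → ℂ} (h : EqC (X + P + Q) 0)
    (h' : EqC (Y + P' + Q') 0) : EqC ((X - Y) + (P - P') + (Q - Q')) 0 := by
  have e : (X - Y) + (P - P') + (Q - Q') = (X + P + Q) - (Y + P' + Q') := by abel
  have := h.sub h'
  rw [← e, sub_zero] at this
  exact this

private lemma av_smul {X P Q : ℤ → ℤ → ℂ} (s : ℂ) (h : EqC (X + P + Q) 0) :
    EqC (s • X + s • P + s • Q) 0 := by
  have := h.smul s
  rw [smul_zero, smul_add, smul_add] at this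
  exact this

/-- The average over a group of order three is invariant, and the difference has average `0`. -/
private lemma proj {G : ℤ → ℤ → ℂ} {a b c d a' b' c' d' : ℤ} (hd : a * d - b * c ≠ 0)
    (h1 : EqC (act a b c d (act a b c d G)) (act a' b' c' d' G))
    (h2 : EqC (act a b c d (act a' b' c' d' G)) G)
    (h3 : EqC (act a b c d (act a b c d ((1 / 3 : ℂ) • (G + act a b c d G + act a' b' c' d' G))))
      (act a' b' c' d' ((1 / 3 : ℂ) • (G + act a b c d G + act a' b' c' d' G)))) :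
    EqC (act a b c d ((1 / 3 : ℂ) • (G + act a b c d G + act a' b' c' d' G)))
      ((1 / 3 : ℂ) • (G + act a b c d G + act a' b' c' d' G)) ∧
    EqC ((G - (1 / 3 : ℂ) • (G + act a b c d G + act a' b' c' d' G)) +
      act a b c d (G - (1 / 3 : ℂ) • (G + act a b c d G + act a' b' c' d' G)) +
      act a' b' c' d' (G - (1 / 3 : ℂ) • (G + act a b c d G + act a' b' c' d' G))) 0 := by
  set A : ℤ → ℤ → ℂ := (1 / 3 : ℂ) • (G + act a b c d G + act a' b' c' d' G) with hA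
  have k1 : EqC (act a b c d A) A := by
    have h4 : EqC (act a b c d G + act a b c d (act a b c d G) + act a b c d (act a' b' c' d' G))
        (act a b c d G + act a' b' c' d' G + G) := ((EqC.refl _).add h1).add h2
    have h5 := h4.smul (1 / 3 : ℂ)
    have e : (1 / 3 : ℂ) • (act a b c d G + act a' b' c' d' G + G) = A := by
      rw [hA]
      congr 1
      abel
    rw [e] at h5
    exact h5
  have k2 : EqC (act a' b' c' d' A) A := h3.symm.trans ((k1.act hd).trans k1)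
  refine ⟨k1, ?_⟩
  have h6 : EqC (A + act a b c d A + act a' b' c' d' A) (A + A + A) :=
    ((EqC.refl A).add k1).add k2
  have e1 : A + A + A = G + act a b c d G + act a' b' c' d' G := by
    rw [hA, ← add_smul, ← add_smul]
    norm_num
  have e2 : (G - A) + act a b c d (G - A) + act a' b' c' d' (G - A) =
      (G + act a b c d G + act a' b' c' d' G) - (A + act a b c d A + act a' b' c' d' A) := by
    rw [act_sub, act_sub]
    abel
  rw [e2]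
  have h7 := (EqC.refl (G + act a b c d G + act a' b' c' d' G)).sub h6
  rw [e1, sub_self] at h7
  exact h7

private lemma swap_add {a b c d : ℤ} {X Y : ℤ → ℤ → ℂ} (h : EqC (act a b c d X) Y)
    (h' : EqC (act a b c d Y) X) :
    EqC (act a b c d ((1 / 2 : ℂ) • (X + Y))) ((1 / 2 : ℂ) • (X + Y)) := by
  have h2 := (h.add h').smul (1 / 2 : ℂ)
  rw [add_comm Y X] at h2
  exact h2

private lemma swap_sub {a b c d : ℤ} {X Y : ℤ → ℤ → ℂ} (h : EqC (act a b c d X) Y)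
    (h' : EqC (act a b c d Y) X) :
    EqC (act a b c d ((1 / 2 : ℂ) • (X - Y))) (-((1 / 2 : ℂ) • (X - Y))) := by
  have h2 := (h.sub h').smul (1 / 2 : ℂ)
  have e : (1 / 2 : ℂ) • (Y - X) = -((1 / 2 : ℂ) • (X - Y)) := by
    rw [← smul_neg, neg_sub]
  rw [e] at h2
  exact h2

private lemma neg_add' {a b c d : ℤ} {X Y : ℤ → ℤ → ℂ} (h : EqC (act a b c d X) (-X))
    (h' : EqC (act a b c d Y) (-Y)) :
    EqC (act a b c d ((1 / 2 : ℂ) • (X + Y))) (-((1 / 2 : ℂ) • (X + Y))) := by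
  have h2 := (h.add h').smul (1 / 2 : ℂ)
  have e : (1 / 2 : ℂ) • (-X + -Y) = -((1 / 2 : ℂ) • (X + Y)) := by
    rw [← smul_neg, neg_add]
  rw [e] at h2
  exact h2

theorem hB3a (hNrm : S3Nrm) (hCom : S3Com) (hLvl : S3Lvl) (hEv : S3Ev) : S3B3a := by
  intro n G hn hG
  have hn2 : 2 ≤ n := by omega
  have hpow1 : (3 : ℤ) ^ n ≠ 0 := pow_ne_zero _ three_ne_zero
  have dt : (3 : ℤ) * 3 - 1 * 0 ≠ 0 := by norm_num
  have ds : (1 : ℤ) * 1 - 0 * 3 ^ (n - 1) ≠ 0 := by norm_num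
  have ds2 : (1 : ℤ) * 1 - 0 * (2 * 3 ^ (n - 1)) ≠ 0 := by norm_num
  have dW : (0 : ℤ) * 0 - (-1) * 3 ^ n ≠ 0 := by
    intro h
    apply hpow1
    linarith
  have dx : (-1 : ℤ) * 1 - 0 * 0 ≠ 0 := by norm_num
  -- the relations of COM in a convenient form
  have cts : ∀ X : ℤ → ℤ → ℂ, Sym3 0 n X →
      EqC (act 3 1 0 3 (act 1 0 (3 ^ (n - 1)) 1 X)) (act 1 0 (3 ^ (n - 1)) 1 (act 3 1 0 3 X)) ∧
      EqC (act 3 2 0 3 (act 1 0 (3 ^ (n - 1)) 1 X)) (act 1 0 (3 ^ (n - 1)) 1 (act 3 2 0 3 X)) ∧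
      EqC (act 3 1 0 3 (act 1 0 (2 * 3 ^ (n - 1)) 1 X))
        (act 1 0 (2 * 3 ^ (n - 1)) 1 (act 3 1 0 3 X)) ∧
      EqC (act 3 2 0 3 (act 1 0 (2 * 3 ^ (n - 1)) 1 X))
        (act 1 0 (2 * 3 ^ (n - 1)) 1 (act 3 2 0 3 X)) := by
    intro X hX
    have h := (hCom n X hn hX).2.2.2.2.2.2.1
    have h1 := h 1 1
    have h2 := h 2 1
    rw [one_mul] at h1 h2
    exact ⟨h1, h2, h 1 2, h 2 2⟩
  have rt1 : ∀ X : ℤ → ℤ → ℂ, Sym3 0 n X → EqC (act 3 (-1) 0 3 X) (act 3 2 0 3 X) := by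
    intro X hX
    have h := (hCom n X hn hX).2.2.2.2.2.2.2.2.2.2.2.2.1 (-1)
    rw [show (-1 : ℤ) + 3 = 2 by norm_num] at h
    exact h.symm
  have rt2 : ∀ X : ℤ → ℤ → ℂ, Sym3 0 n X → EqC (act 3 (-2) 0 3 X) (act 3 1 0 3 X) := by
    intro X hX
    have h := (hCom n X hn hX).2.2.2.2.2.2.2.2.2.2.2.2.1 (-2)
    rw [show (-2 : ℤ) + 3 = 1 by norm_num] at h
    exact h.symm
  have rs1 : ∀ X : ℤ → ℤ → ℂ, Sym3 0 n X →
      EqC (act 1 0 (-1 * 3 ^ (n - 1)) 1 X) (act 1 0 (2 * 3 ^ (n - 1)) 1 X) := by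
    intro X hX
    have h := (hCom n X hn hX).2.2.2.2.2.2.2.2.2.2.2.2.2 (-1)
    rw [show (-1 : ℤ) + 3 = 2 by norm_num] at h
    exact h.symm
  have rs2 : ∀ X : ℤ → ℤ → ℂ, Sym3 0 n X →
      EqC (act 1 0 (-2 * 3 ^ (n - 1)) 1 X) (act 1 0 (3 ^ (n - 1)) 1 X) := by
    intro X hX
    have h := (hCom n X hn hX).2.2.2.2.2.2.2.2.2.2.2.2.2 (-2)
    rw [show (-2 : ℤ) + 3 = 1 by norm_num, one_mul] at h
    exact h.symm
  -- the symbols
  set A : ℤ → ℤ → ℂ := (1 / 3 : ℂ) • (G + act 3 1 0 3 G + act 3 2 0 3 G) with hA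
  set B : ℤ → ℤ → ℂ := G - A with hB
  set C : ℤ → ℤ → ℂ := (1 / 3 : ℂ) •
    (B + act 1 0 (3 ^ (n - 1)) 1 B + act 1 0 (2 * 3 ^ (n - 1)) 1 B) with hC
  set E : ℤ → ℤ → ℂ := B - C with hE
  set F : ℤ → ℤ → ℂ := (1 / 2 : ℂ) • (E - act 0 (-1) (3 ^ n) 0 E) with hF
  set G1 : ℤ → ℤ → ℂ := (1 / 2 : ℂ) • (F + act (-1) 0 0 1 F) with hG1
  have sA : Sym3 0 n A :=
    ((hG.add (hNrm n G hn2 hG).2.1).add (hNrm n G hn2 hG).2.2.1).smul _
  have sB : Sym3 0 n B := hG.sub sA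
  have sC : Sym3 0 n C :=
    ((sB.add (hNrm n B hn2 sB).2.2.2.1).add (hNrm n B hn2 sB).2.2.2.2.1).smul _
  have sE : Sym3 0 n E := sB.sub sC
  have sF : Sym3 0 n F := (sE.sub (hNrm n E hn2 sE).1).smul _
  have sG1 : Sym3 0 n G1 := (sF.add (hNrm n F hn2 sF).2.2.2.2.2).smul _
  -- averages
  have pA := proj dt (hCom n G hn hG).1 (hCom n G hn hG).2.1 (hCom n A hn sA).1
  have pC := proj ds (hCom n B hn sB).2.2.1 (hCom n B hn sB).2.2.2.1 (hCom n C hn sC).2.2.1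
  have tA : EqC (act 3 1 0 3 A) A := pA.1
  have tB : EqC (B + act 3 1 0 3 B + act 3 2 0 3 B) 0 := pA.2
  have sCC : EqC (act 1 0 (3 ^ (n - 1)) 1 C) C := pC.1
  have sEE : EqC (E + act 1 0 (3 ^ (n - 1)) 1 E + act 1 0 (2 * 3 ^ (n - 1)) 1 E) 0 := pC.2
  have tC : EqC (C + act 3 1 0 3 C + act 3 2 0 3 C) 0 := by
    obtain ⟨c1, c2, c3, c4⟩ := cts B sB
    have h1 := av_comm ds tB c1 c2
    have h2 := av_comm ds2 tB c3 c4
    exact av_smul (1 / 3 : ℂ) (av_add (av_add tB h1) h2)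
  have tE : EqC (E + act 3 1 0 3 E + act 3 2 0 3 E) 0 := av_sub tB tC
  have WF : EqC (act 0 (-1) (3 ^ n) 0 F) (-F) :=
    swap_sub (EqC.refl (act 0 (-1) (3 ^ n) 0 E)) (hCom n E hn sE).2.2.2.2.1
  have tF : EqC (F + act 3 1 0 3 F + act 3 2 0 3 F) 0 := by
    have c := (hCom n E hn sE).2.2.2.2.2.2.2.1
    have c1 : EqC (act 3 1 0 3 (act 0 (-1) (3 ^ n) 0 E))
        (act 0 (-1) (3 ^ n) 0 (act 1 0 (2 * 3 ^ (n - 1)) 1 E)) :=
      (c 1).trans ((rs1 E sE).act dW)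
    have c2 : EqC (act 3 2 0 3 (act 0 (-1) (3 ^ n) 0 E))
        (act 0 (-1) (3 ^ n) 0 (act 1 0 (3 ^ (n - 1)) 1 E)) :=
      (c 2).trans ((rs2 E sE).act dW)
    exact av_smul (1 / 2 : ℂ) (av_sub tE (av_swap dW sEE c1 c2))
  have sFF : EqC (F + act 1 0 (3 ^ (n - 1)) 1 F + act 1 0 (2 * 3 ^ (n - 1)) 1 F) 0 := by
    have c := (hCom n E hn sE).2.2.2.2.2.2.2.2.1
    have c1 : EqC (act 1 0 (3 ^ (n - 1)) 1 (act 0 (-1) (3 ^ n) 0 E))
        (act 0 (-1) (3 ^ n) 0 (act 3 2 0 3 E)) := by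
      have h := c 1
      rw [one_mul] at h
      exact h.trans ((rt1 E sE).act dW)
    have c2 : EqC (act 1 0 (2 * 3 ^ (n - 1)) 1 (act 0 (-1) (3 ^ n) 0 E))
        (act 0 (-1) (3 ^ n) 0 (act 3 1 0 3 E)) :=
      (c 2).trans ((rt2 E sE).act dW)
    exact av_smul (1 / 2 : ℂ) (av_sub sEE (av_swap dW tE c1 c2))
  have xG1 : EqC (act (-1) 0 0 1 G1) G1 :=
    swap_add (EqC.refl (act (-1) 0 0 1 F)) (hCom n F hn sF).2.2.2.2.2.1
  have tG1 : EqC (G1 + act 3 1 0 3 G1 + act 3 2 0 3 G1) 0 := by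
    have c := (hCom n F hn sF).2.2.2.2.2.2.2.2.2.1
    have c1 : EqC (act 3 1 0 3 (act (-1) 0 0 1 F)) (act (-1) 0 0 1 (act 3 2 0 3 F)) :=
      (c 1).trans ((rt1 F sF).act dx)
    have c2 : EqC (act 3 2 0 3 (act (-1) 0 0 1 F)) (act (-1) 0 0 1 (act 3 1 0 3 F)) :=
      (c 2).trans ((rt2 F sF).act dx)
    exact av_smul (1 / 2 : ℂ) (av_add tF (av_swap dx tF c1 c2))
  have sG1' : EqC (G1 + act 1 0 (3 ^ (n - 1)) 1 G1 + act 1 0 (2 * 3 ^ (n - 1)) 1 G1) 0 := by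
    have c := (hCom n F hn sF).2.2.2.2.2.2.2.2.2.2.1
    have c1 : EqC (act 1 0 (3 ^ (n - 1)) 1 (act (-1) 0 0 1 F))
        (act (-1) 0 0 1 (act 1 0 (2 * 3 ^ (n - 1)) 1 F)) := by
      have h := c 1
      rw [one_mul] at h
      exact h.trans ((rs1 F sF).act dx)
    have c2 : EqC (act 1 0 (2 * 3 ^ (n - 1)) 1 (act (-1) 0 0 1 F))
        (act (-1) 0 0 1 (act 1 0 (3 ^ (n - 1)) 1 F)) :=
      (c 2).trans ((rs2 F sF).act dx)
    exact av_smul (1 / 2 : ℂ) (av_add sFF (av_swap dx sFF c1 c2))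
  have WG1 : EqC (act 0 (-1) (3 ^ n) 0 G1) (-G1) := by
    have h1 : EqC (act 0 (-1) (3 ^ n) 0 (act (-1) 0 0 1 F)) (-(act (-1) 0 0 1 F)) := by
      refine (hCom n F hn sF).2.2.2.2.2.2.2.2.2.2.2.1.trans ?_
      have := WF.act dx
      rw [act_neg] at this
      exact this
    exact neg_add' WF h1
  have lA : Sym3 0 (n - 1) (act 0 (-1) (3 ^ n) 0 A) := (hLvl n A hn2 sA).2 tA
  have lC : Sym3 0 (n - 1) C := (hLvl n C hn2 sC).1 sCC
  refine ⟨C + -(act 0 (-1) (3 ^ n) 0 A), G1, lC.add lA.neg,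
    ⟨sG1, tG1, sG1', WG1, xG1⟩, fun i j => ?_⟩
  have evsub : ∀ X Y : ℤ → ℤ → ℂ, ev3 1 (X - Y) i j = ev3 1 X i j - ev3 1 Y i j := by
    intro X Y
    rw [sub_eq_add_neg, ev3_add, ev3_neg]
    ring
  have eA := (hEv n A hn2 sA i j).1
  have eE := (hEv n E hn2 sE i j).1
  have eF := (hEv n F hn2 sF i j).2
  have e2 : ev3 1 B i j = ev3 1 G i j - ev3 1 A i j := by rw [hB, evsub]
  have e4 : ev3 1 E i j = ev3 1 B i j - ev3 1 C i j := by rw [hE, evsub]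
  have e5 : ev3 1 F i j = (1 / 2 : ℂ) * (ev3 1 E i j - ev3 1 (act 0 (-1) (3 ^ n) 0 E) i j) := by
    rw [hF, ev3_smul, evsub, smul_eq_mul]
  have e6 : ev3 1 G1 i j = (1 / 2 : ℂ) * (ev3 1 F i j + ev3 1 (act (-1) 0 0 1 F) i j) := by
    rw [hG1, ev3_smul, ev3_add, smul_eq_mul]
  rw [ev3_add, ev3_neg, eA]
  rw [eF] at e6
  rw [eE] at e5
  linear_combination -e2 - e4 - e5 - e6

end Pool.Agent.Helper72.W3
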