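import Pool.Agent.Helper78.W3.StD

/-!
# Project W3, module Cnt: counting the index set
-/

set_option autoImplicit false

namespace Pool.Agent.Helper72.W3

open Pool.Agent.Helper78.W3 Pool.Agent.Helper14.W3
open Pool.Agent.Helper14.CV (Homog EqC act Tl)

/-- Counting the numbers below `c`. -/
private theorem inner (A c : ℕ) (h : c ≤ A) :
    (∑ i ∈ Finset.range A, if i < c then 1 else 0) = c := by
  rw [← Finset.sum_filter, Finset.sum_const, smul_eq_mul, mul_one]
  have : (Finset.range A).filter (fun i => i < c) = Finset.range c := by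
    ext i
    simp only [Finset.mem_filter, Finset.mem_range]
    omega
  rw [this, Finset.card_range]

/-- Gauss. -/
private theorem gauss (M : ℕ) : (∑ j ∈ Finset.range M, (M - j)) * 2 = M * (M + 1) := by
  induction M with
  | zero => simp
  | succ M ih =>
    rw [Finset.sum_range_succ']
    have h : (∑ k ∈ Finset.range M, (M + 1 - (k + 1))) = ∑ k ∈ Finset.range M, (M - k) :=
      Finset.sum_congr rfl fun k _ => by omega
    rw [h, add_mul, ih]
    simp only [Nat.sub_zero]
    ring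

/-- Terms `g (M - j)` with `g 0 = 0` vanish beyond `M`. -/
private theorem cut (g : ℕ → ℕ) (hg : g 0 = 0) (B M : ℕ) (h : M ≤ B) :
    ∑ j ∈ Finset.range B, g (M - j) = ∑ j ∈ Finset.range M, g (M - j) := by
  symm
  apply Finset.sum_subset
  · intro j hj
    simp only [Finset.mem_range] at hj ⊢
    omega
  · intro j _ hj
    simp only [Finset.mem_range] at hj
    rw [Nat.sub_eq_zero_of_le (by omega), hg]

/-- The sum of the `3 (M - j) - 1`. -/
private theorem sum3 (M : ℕ) : (∑ j ∈ Finset.range M, (3 * (M - j) - 1)) * 2 = M * (3 * M + 1) := by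
  have h : (∑ j ∈ Finset.range M, (3 * (M - j) - 1)) + ∑ j ∈ Finset.range M, 1 =
      3 * ∑ j ∈ Finset.range M, (M - j) := by
    rw [Finset.mul_sum, ← Finset.sum_add_distrib]
    apply Finset.sum_congr rfl
    intro j hj
    rw [Finset.mem_range] at hj
    omega
  have h2 : (∑ j ∈ Finset.range M, 1) = M := by simp
  rw [h2] at h
  have hg := gauss M
  nlinarith

/-- The first set. -/
private theorem tri1 (A B M : ℕ) (hA : 6 * M ≤ A) (hB : M ≤ B) :
    ((Finset.range A ×ˢ Finset.range B).filter fun t : ℕ × ℕ => t.1 / 2 + 3 * t.2 + 1 < 3 * M).card =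
      M * (3 * M + 1) := by
  rw [Finset.card_filter, Finset.sum_product_right, ← sum3 M,
    ← cut (fun x => 3 * x - 1) rfl B M hB, Finset.sum_mul]
  apply Finset.sum_congr rfl
  intro j _
  rw [← inner A ((3 * (M - j) - 1) * 2) (by omega)]
  apply Finset.sum_congr rfl
  intro i _
  by_cases h : i / 2 + 3 * j + 1 < 3 * M
  · rw [if_pos h, if_pos (by omega)]
  · rw [if_neg h, if_neg (by omega)]

/-- The second set. -/
private theorem tri2 (A B M : ℕ) (hA : 2 * M ≤ A) (hB : M ≤ B) :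
    ((Finset.range A ×ˢ Finset.range B).filter fun t : ℕ × ℕ => t.1 / 2 + t.2 < M).card =
      M * (M + 1) := by
  rw [Finset.card_filter, Finset.sum_product_right, ← gauss M,
    ← cut (fun x => x) rfl B M hB, Finset.sum_mul]
  apply Finset.sum_congr rfl
  intro j _
  rw [← inner A ((M - j) * 2) (by omega)]
  apply Finset.sum_congr rfl
  intro i _
  by_cases h : i / 2 + j < M
  · rw [if_pos h, if_pos (by omega)]
  · rw [if_neg h, if_neg (by omega)]

private theorem dd_odd (m : ℕ) : dd3 (2 * m + 5) = 2 * 3 ^ m * (3 ^ (m + 1) + 1) := by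
  unfold dd3
  rw [if_neg (by omega), if_neg (by omega), if_neg (by omega)]
  have h : (2 * m + 5) / 2 - 2 = m := by omega
  have h' : (2 * m + 5) / 2 - 1 = m + 1 := by omega
  rw [h, h']

private theorem dd_even (m : ℕ) : dd3 (2 * m + 4) = 2 * 9 ^ m := by
  unfold dd3
  rw [if_neg (by omega), if_neg (by omega), if_pos (by omega)]
  have h : (2 * m + 4) / 2 - 2 = m := by omega
  rw [h]

private theorem DD_succ (n : ℕ) : DD3 (n + 1) = DD3 n + dd3 (n + 1) := by
  unfold DD3
  rw [Finset.sum_range_succ (fun m => dd3 m) (n + 1)]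
  ring

private theorem nine (m : ℕ) : (9 : ℕ) ^ m = 3 ^ m * 3 ^ m := by
  rw [← mul_pow]
  norm_num

private theorem DD_odd (m : ℕ) : DD3 (2 * m + 3) = 3 ^ m * (3 ^ m + 1) := by
  induction m with
  | zero => decide
  | succ m ih =>
    have h1 : DD3 (2 * (m + 1) + 3) = DD3 (2 * m + 3) + dd3 (2 * m + 4) + dd3 (2 * m + 5) := by
      rw [show 2 * (m + 1) + 3 = (2 * m + 4) + 1 by ring, DD_succ,
        show 2 * m + 4 = (2 * m + 3) + 1 by ring, DD_succ]
    rw [h1, ih, dd_odd, dd_even, nine, pow_succ]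
    ring

private theorem DD_even (m : ℕ) : DD3 (2 * m + 4) = 3 ^ m * (3 * 3 ^ m + 1) := by
  have h1 : DD3 (2 * m + 4) = DD3 (2 * m + 3) + dd3 (2 * m + 4) := DD_succ (2 * m + 3)
  rw [h1, DD_odd, dd_even, nine]
  ring

/-- CNT. -/
theorem hCnt : S3Cnt := by
  constructor
  · intro k hk
    obtain ⟨m, rfl⟩ : ∃ m, k = m + 2 := ⟨k - 2, by omega⟩
    have hp : (3 : ℕ) ^ (m + 2 - 1) = 3 * 3 ^ m := by
      rw [show m + 2 - 1 = m + 1 by omega, pow_succ]
      ring
    have hq : (3 : ℕ) ^ (m + 2) = 9 * 3 ^ m := by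
      rw [pow_add]
      ring
    have h1 := tri1 (2 * 3 ^ (m + 2)) (3 ^ (m + 2)) (3 ^ m) (by omega) (by omega)
    have h2 : DD3 (2 * (m + 2)) = 3 ^ m * (3 * 3 ^ m + 1) := DD_even m
    have h3 : ((Finset.range (2 * 3 ^ (m + 2)) ×ˢ Finset.range (3 ^ (m + 2))).filter
        fun t : ℕ × ℕ => t.1 / 2 + 3 * t.2 + 1 < 3 ^ (m + 2 - 1) ∧
          t.1 / 2 + t.2 < 3 ^ (m + 2 - 1)) =
        ((Finset.range (2 * 3 ^ (m + 2)) ×ˢ Finset.range (3 ^ (m + 2))).filter
          fun t : ℕ × ℕ => t.1 / 2 + 3 * t.2 + 1 < 3 * 3 ^ m) := by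
      apply Finset.filter_congr
      intro t _
      rw [hp]
      constructor
      · intro h
        exact h.1
      · intro h
        constructor <;> omega
    rw [h3, h1, h2]
  · intro k hk
    obtain ⟨m, rfl⟩ : ∃ m, k = m + 1 := ⟨k - 1, by omega⟩
    have hp : (3 : ℕ) ^ (m + 1 - 1) = 3 ^ m := by
      rw [show m + 1 - 1 = m by omega]
    have hq : (3 : ℕ) ^ (m + 1) = 3 * 3 ^ m := by
      rw [pow_succ]
      ring
    have hr : (3 : ℕ) ^ (m + 1 + 1) = 9 * 3 ^ m := by
      rw [add_assoc, pow_add]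
      ring
    have h1 := tri2 (2 * 3 ^ (m + 1 + 1)) (3 ^ (m + 1 + 1)) (3 ^ m) (by omega) (by omega)
    have h2 : DD3 (2 * (m + 1) + 1) = 3 ^ m * (3 ^ m + 1) := DD_odd m
    have h3 : ((Finset.range (2 * 3 ^ (m + 1 + 1)) ×ˢ Finset.range (3 ^ (m + 1 + 1))).filter
        fun t : ℕ × ℕ => t.1 / 2 + 3 * t.2 + 1 < 3 ^ (m + 1) ∧ t.1 / 2 + t.2 < 3 ^ (m + 1 - 1)) =
        ((Finset.range (2 * 3 ^ (m + 1 + 1)) ×ˢ Finset.range (3 ^ (m + 1 + 1))).filter
          fun t : ℕ × ℕ => t.1 / 2 + t.2 < 3 ^ m) := by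
      apply Finset.filter_congr
      intro t _
      rw [hp, hq]
      constructor
      · intro h
        exact h.2
      · intro h
        constructor <;> omega
    rw [h3, h1, h2]

end Pool.Agent.Helper72.W3
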